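import Mathlib

namespace Pool.Agent.Results.MP_aa870c_nt.Counter

/-- triples `(a,b,c)` that satisfy every hypothesis and for which the permuted equation is solvable -/
def Cex : Set (ℕ × ℕ × ℕ) :=
  {t | ∃ a b c p q r X Y Z : ℕ, t = (a, b, c) ∧
    1 < a ∧ 1 < b ∧ 1 < c ∧ Nat.gcd a (Nat.gcd b c) = 1 ∧
    1 < p ∧ 1 < q ∧ 1 < r ∧ a ^ p + b ^ q = c ^ r ∧
    a < b ∧ (a, b, c) ≠ (2, 7, 3) ∧
    (∀ k : ℕ, 0 < k → (a, b, c) ≠ (2, 2 ^ k - 1, 2 ^ k + 1)) ∧
    ¬ (q = 2 ∧ r = 2 ∧ c = b + 1) ∧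
    0 < X ∧ 0 < Y ∧ 0 < Z ∧ c ^ X + b ^ Y = a ^ Z}

lemma pell (n : ℕ) : ∃ a c : ℕ, n + 5 ≤ c ∧ a ^ 2 + 1 = 2 * c ^ 2 := by
  induction n with
  | zero => exact ⟨7, 5, by norm_num, by norm_num⟩
  | succ n ih =>
    obtain ⟨a, c, h1, h2⟩ := ih
    exact ⟨3 * a + 4 * c, 2 * a + 3 * c, by omega, by nlinarith⟩

theorem result : (2, 11, 5) ∈ Cex ∧ Cex.Infinite := by
  constructor
  · refine ⟨2, 11, 5, 2, 2, 3, 1, 1, 4, rfl, by norm_num, by norm_num, by norm_num, by norm_num,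
      by norm_num, by norm_num, by norm_num, by norm_num, by norm_num, by simp, ?_, by norm_num,
      by norm_num, by norm_num, by norm_num, by norm_num⟩
    intro k _ h
    simp only [Prod.mk.injEq] at h
    omega
  · apply Set.Infinite.of_image (fun t => t.2.2)
    apply Set.infinite_of_forall_exists_gt
    intro n
    obtain ⟨a, c, h1, h2⟩ := pell n
    obtain ⟨b, hb⟩ : ∃ b, c ^ 2 = b + 1 := ⟨c ^ 2 - 1, by
      have : 0 < c ^ 2 := pow_pos (by omega) 2
      omega⟩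
    have hc : 5 ≤ c := by omega
    have ha : 2 < a := by nlinarith
    have hab : a < b := by nlinarith
    refine ⟨c, ⟨(a, b, c), ⟨a, b, c, 2, 2, 4, 2, 1, 2, rfl, by omega, by omega, by omega, ?_,
      by norm_num, by norm_num, by norm_num, ?_, hab, ?_, ?_, by omega, by norm_num, by norm_num,
      by norm_num, by rw [pow_one]; omega⟩, rfl⟩, by omega⟩
    · have h3 : Nat.gcd b c = 1 := by
        have h4 : Nat.Coprime b (c ^ 2) := by rw [hb]; simp
        exact Nat.Coprime.coprime_dvd_right (dvd_pow_self c (by norm_num)) h4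
      rw [h3]; simp
    · have : c ^ 4 = (c ^ 2) ^ 2 := by ring
      rw [this, hb]
      rw [hb] at h2
      nlinarith
    · intro h
      simp only [Prod.mk.injEq] at h
      omega
    · intro k _ h
      simp only [Prod.mk.injEq] at h
      omega

end Pool.Agent.Results.MP_aa870c_nt.Counter
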